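import Pool.Agent.PFE.StmtsE2

/-!
Squad PFE, part E2, row BBY (helper70): balanced bilinear maps from families.
-/

set_option autoImplicit false

open scoped BigOperators

noncomputable section

namespace Pool.Agent.PFE.H70

open MulOpposite
open Pool.Agent.PFC.B1 (BiM)
open Pool.Agent.PFD.D2
open Pool.Agent.PFD.D2b (wrp)

section

variable {R Γ W N : Type} [CommRing R] [CommRing Γ] [Algebra R Γ] [CommGroup W] [Fintype W]
  [AddCommGroup N] [Module R N]

/-- induction over `Γ` -/
theorem gy_ind {l : ℕ} (G : GY R Γ W l) (P : Γ → Prop) (h1 : P 1) (hy : P G.y)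
    (hw : ∀ w, P (G.om w)) (hm : ∀ a b, P a → P b → P (a * b))
    (ha : ∀ a b, P a → P b → P (a + b)) (h0 : P 0) (hs : ∀ (r : R) a, P a → P (r • a))
    (γ : Γ) : P γ := by
  have hp : ∀ k : ℕ, P (G.y ^ k) := by
    intro k
    induction k with
    | zero => rw [pow_zero]; exact h1
    | succ k ih => rw [pow_succ]; exact hm _ _ ih hy
  rw [← G.ex γ]
  refine Finset.sum_induction _ P ha h0 fun k _ => ?_
  refine Finset.sum_induction _ P ha h0 fun w _ => ?_
  exact hs _ _ (hm _ _ (hp k) (hw w))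

theorem wrp_l {l : ℕ} (G : GY R Γ W l) (B : BiM R Γ N) (u : W) (n : N) :
    wrp G.om B (u, 1) n = B.lm (G.om u) n := by
  show B.lm (G.om u) (B.rm (op (G.om (1 : W)⁻¹)) n) = B.lm (G.om u) n
  rw [inv_one, map_one, op_one, map_one, Module.End.one_apply]

theorem wrp_r {l : ℕ} (G : GY R Γ W l) (B : BiM R Γ N) (v : W) (n : N) :
    wrp G.om B (1, v) n = B.rm (op (G.om v⁻¹)) n := by
  show B.lm (G.om 1) (B.rm (op (G.om v⁻¹)) n) = B.rm (op (G.om v⁻¹)) n
  rw [map_one, map_one, Module.End.one_apply]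

theorem lm_mul (B : BiM R Γ N) (a b : Γ) (n : N) : B.lm (a * b) n = B.lm a (B.lm b n) := by
  rw [map_mul, Module.End.mul_apply]

theorem rm_mul (B : BiM R Γ N) (a b : Γ) (n : N) :
    B.rm (op (a * b)) n = B.rm (op b) (B.rm (op a) n) := by
  rw [op_mul, map_mul, Module.End.mul_apply]

theorem rm_mul' (B : BiM R Γ N) (a b : Γ) (n : N) :
    B.rm (op (a * b)) n = B.rm (op a) (B.rm (op b) n) := by
  rw [mul_comm, rm_mul]

end

theorem bby : BbyStmt := by
  intro R Γ W M N Ξ _ _ _ _ _ _ _ _ _ _ l G BX BN xw L Rr P Q μ hxb hx1 hL1 hR1 hL2 hR2 hL3 hR3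
    hM1 hM2
  have hlmadd : ∀ (a b : Γ) (n : N), BN.lm (a + b) n = BN.lm a n + BN.lm b n := by
    intro a b n
    rw [map_add, LinearMap.add_apply]
  have hlmsmul : ∀ (r : R) (a : Γ) (n : N), BN.lm (r • a) n = r • BN.lm a n := by
    intro r a n
    rw [map_smul, LinearMap.smul_apply]
  have hrmadd : ∀ (a b : Γ) (n : N),
      BN.rm (op (a + b)) n = BN.rm (op a) n + BN.rm (op b) n := by
    intro a b n
    rw [op_add, map_add, LinearMap.add_apply]
  have hrmsmul : ∀ (r : R) (a : Γ) (n : N), BN.rm (op (r • a)) n = r • BN.rm (op a) n := by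
    intro r a n
    rw [op_smul, map_smul, LinearMap.smul_apply]
  let β : M →ₗ[R] M →ₗ[R] N := LinearMap.mk₂ R
    (fun n n' => ∑ ξ, ∑ ξ', BN.lm (L n ξ) (BN.rm (op (Rr n' ξ')) (μ ξ ξ')))
    (fun a b n' => by
      simp only [map_add, Pi.add_apply, LinearMap.add_apply, Finset.sum_add_distrib])
    (fun r a n' => by
      simp only [map_smul, Pi.smul_apply, LinearMap.smul_apply, Finset.smul_sum])
    (fun n a b => by
      simp only [map_add, Pi.add_apply, hrmadd, Finset.sum_add_distrib])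
    (fun r n a => by
      simp only [map_smul, Pi.smul_apply, hrmsmul, Finset.smul_sum])
  have hβ : ∀ n n', β n n' = ∑ ξ, ∑ ξ', BN.lm (L n ξ) (BN.rm (op (Rr n' ξ')) (μ ξ ξ')) :=
    fun n n' => rfl
  have hre : ∀ (w : W × W) (f : Ξ → N), ∑ ξ, f ξ = ∑ ξ, f (xw w ξ) := by
    intro w f
    exact (Function.Bijective.sum_comp (hxb w) f).symm
  -- left
  have hl : ∀ γ n n', β (BX.lm γ n) n' = BN.lm γ (β n n') := by
    intro γ
    refine gy_ind G (fun γ => ∀ n n', β (BX.lm γ n) n' = BN.lm γ (β n n')) ?_ ?_ ?_ ?_ ?_ ?_ ?_ γ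
    · intro n n'
      rw [map_one, map_one, Module.End.one_apply, Module.End.one_apply]
    · intro n n'
      rw [hβ, hβ, map_sum]
      refine Finset.sum_congr rfl fun ξ _ => ?_
      rw [map_sum]
      refine Finset.sum_congr rfl fun ξ' _ => ?_
      rw [hL1, lm_mul]
    · intro u n n'
      rw [hβ, hβ, hre (u, 1), map_sum]
      refine Finset.sum_congr rfl fun ξ _ => ?_
      rw [map_sum]
      refine Finset.sum_congr rfl fun ξ' _ => ?_
      have e1 : L (BX.lm (G.om u) n) (xw (u, 1) ξ) = L n ξ := by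
        rw [← wrp_l, hL3]
      have e2 : μ (xw (u, 1) ξ) ξ' = BN.lm (G.om u) (μ ξ ξ') := by
        have h := hM1 u 1 1 ξ ξ'
        rw [show ((1, 1) : W × W) = 1 from rfl, hx1, wrp_l] at h
        exact h
      rw [e1, e2, ← BN.comm, ← lm_mul, mul_comm, lm_mul]
    · intro a b h1 h2 n n'
      rw [lm_mul, h1, h2, lm_mul]
    · intro a b h1 h2 n n'
      rw [map_add, LinearMap.add_apply, map_add, LinearMap.add_apply, h1, h2, hlmadd]
    · intro n n'
      rw [map_zero, map_zero, LinearMap.zero_apply, LinearMap.zero_apply, map_zero,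
        LinearMap.zero_apply]
    · intro r a h1 n n'
      rw [map_smul, LinearMap.smul_apply, map_smul, LinearMap.smul_apply, h1, hlmsmul]
  -- right
  have hr : ∀ γ n n', β n (BX.rm (op γ) n') = BN.rm (op γ) (β n n') := by
    intro γ
    refine gy_ind G (fun γ => ∀ n n', β n (BX.rm (op γ) n') = BN.rm (op γ) (β n n'))
      ?_ ?_ ?_ ?_ ?_ ?_ ?_ γ
    · intro n n'
      rw [op_one, map_one, map_one, Module.End.one_apply, Module.End.one_apply]
    · intro n n'
      rw [hβ, hβ, map_sum]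
      refine Finset.sum_congr rfl fun ξ _ => ?_
      rw [map_sum]
      refine Finset.sum_congr rfl fun ξ' _ => ?_
      rw [hR1, rm_mul, BN.comm]
    · intro v n n'
      rw [hβ, hβ, map_sum]
      refine Finset.sum_congr rfl fun ξ _ => ?_
      rw [map_sum, hre (1, v⁻¹)]
      refine Finset.sum_congr rfl fun ξ' _ => ?_
      have e1 : Rr (BX.rm (op (G.om v)) n') (xw (1, v⁻¹) ξ') = Rr n' ξ' := by
        have h := hR3 (1, v⁻¹) n' ξ'
        rw [wrp_r, inv_inv] at h
        exact h
      have e2 : μ ξ (xw (1, v⁻¹) ξ') = BN.rm (op (G.om v)) (μ ξ ξ') := by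
        have h := hM1 1 1 v⁻¹ ξ ξ'
        rw [show ((1, 1) : W × W) = 1 from rfl, hx1, wrp_r, inv_inv] at h
        exact h
      rw [e1, e2, ← rm_mul, mul_comm, rm_mul, BN.comm]
    · intro a b h1 h2 n n'
      rw [rm_mul, h2, h1, ← rm_mul]
    · intro a b h1 h2 n n'
      rw [op_add, map_add, LinearMap.add_apply, map_add, h1, h2, ← hrmadd, op_add]
    · intro n n'
      rw [op_zero, map_zero, map_zero, LinearMap.zero_apply, LinearMap.zero_apply, map_zero]
    · intro r a h1 n n'
      rw [op_smul, map_smul, LinearMap.smul_apply, map_smul, h1, ← hrmsmul, op_smul]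
  -- balanced
  have hb : ∀ γ n n', β (BX.rm (op γ) n) n' = β n (BX.lm γ n') := by
    intro γ
    refine gy_ind G (fun γ => ∀ n n', β (BX.rm (op γ) n) n' = β n (BX.lm γ n'))
      ?_ ?_ ?_ ?_ ?_ ?_ ?_ γ
    · intro n n'
      rw [op_one, map_one, map_one, Module.End.one_apply, Module.End.one_apply]
    · intro n n'
      have s1 : ∀ ξ', ∑ ξ, BN.lm (L (BX.rm (op G.y) n) ξ) (BN.rm (op (Rr n' ξ')) (μ ξ ξ')) =
          ∑ η, ∑ ξ, BN.lm (L n η) (BN.rm (op (Q ξ ξ' * Rr n' ξ')) (μ η ξ)) := by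
        intro ξ'
        calc ∑ ξ, BN.lm (L (BX.rm (op G.y) n) ξ) (BN.rm (op (Rr n' ξ')) (μ ξ ξ'))
            = ∑ ξ, ∑ η, BN.lm (L n η) (BN.rm (op (Rr n' ξ')) (BN.lm (P η ξ) (μ ξ ξ'))) := by
              refine Finset.sum_congr rfl fun ξ _ => ?_
              rw [hL2, map_sum, LinearMap.sum_apply]
              refine Finset.sum_congr rfl fun η _ => ?_
              rw [mul_comm, lm_mul, BN.comm (P η ξ)]
          _ = ∑ η, ∑ ξ, BN.lm (L n η) (BN.rm (op (Rr n' ξ')) (BN.lm (P η ξ) (μ ξ ξ'))) :=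
              Finset.sum_comm
          _ = ∑ η, BN.lm (L n η) (BN.rm (op (Rr n' ξ')) (∑ ξ, BN.lm (P η ξ) (μ ξ ξ'))) := by
              refine Finset.sum_congr rfl fun η _ => ?_
              rw [map_sum, map_sum]
          _ = ∑ η, BN.lm (L n η) (BN.rm (op (Rr n' ξ'))
                (∑ ξ, BN.rm (op (Q ξ ξ')) (μ η ξ))) := by
              refine Finset.sum_congr rfl fun η _ => ?_
              rw [hM2]
          _ = ∑ η, ∑ ξ, BN.lm (L n η) (BN.rm (op (Q ξ ξ' * Rr n' ξ')) (μ η ξ)) := by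
              refine Finset.sum_congr rfl fun η _ => ?_
              rw [map_sum, map_sum]
              refine Finset.sum_congr rfl fun ξ _ => ?_
              rw [rm_mul]
      rw [hβ, hβ, Finset.sum_comm, Finset.sum_congr rfl fun ξ' _ => s1 ξ', Finset.sum_comm]
      refine Finset.sum_congr rfl fun η _ => ?_
      rw [Finset.sum_comm]
      refine Finset.sum_congr rfl fun ξ _ => ?_
      rw [hR2, ← map_sum]
      congr 1
      have hs : ∀ (s : Finset Ξ) (f : Ξ → Γ) (n : N),
          BN.rm (op (∑ i ∈ s, f i)) n = ∑ i ∈ s, BN.rm (op (f i)) n := by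
        intro s f n
        classical
        induction s using Finset.induction_on with
        | empty => rw [Finset.sum_empty, Finset.sum_empty, op_zero, map_zero,
            LinearMap.zero_apply]
        | insert a s ha ih => rw [Finset.sum_insert ha, Finset.sum_insert ha, hrmadd, ih]
      rw [hs]
    · intro v n n'
      rw [hβ, hβ, hre (1, v⁻¹)]
      refine Finset.sum_congr rfl fun ξ _ => ?_
      rw [hre (v⁻¹, 1)]
      refine Finset.sum_congr rfl fun ξ' _ => ?_
      have e1 : L (BX.rm (op (G.om v)) n) (xw (1, v⁻¹) ξ) = L n ξ := by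
        have h := hL3 (1, v⁻¹) n ξ
        rw [wrp_r, inv_inv] at h
        exact h
      have e2 : μ (xw (1, v⁻¹) ξ) (xw (v⁻¹, 1) ξ') = μ ξ ξ' := by
        rw [hM1, show ((1, 1) : W × W) = 1 from rfl, map_one, Module.End.one_apply]
      have e3 : Rr n' (xw (v⁻¹, 1) ξ') = Rr (BX.lm (G.om v) n') ξ' := by
        have h := hR3 (v⁻¹, 1) (BX.lm (G.om v) n') ξ'
        rw [wrp_l, ← lm_mul, ← map_mul, inv_mul_cancel, map_one, map_one,
          Module.End.one_apply] at h
        exact h
      rw [e1, e2, e3]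
    · intro a b h1 h2 n n'
      rw [rm_mul, h2, h1, ← lm_mul]
    · intro a b h1 h2 n n'
      rw [op_add, map_add, LinearMap.add_apply, map_add, LinearMap.add_apply, h1, h2, map_add,
        LinearMap.add_apply, map_add]
    · intro n n'
      rw [op_zero, map_zero, map_zero, LinearMap.zero_apply, LinearMap.zero_apply, map_zero,
        map_zero, LinearMap.zero_apply]
    · intro r a h1 n n'
      rw [op_smul, map_smul, LinearMap.smul_apply, map_smul, LinearMap.smul_apply, h1, map_smul,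
        LinearMap.smul_apply, map_smul]
  refine ⟨β, ⟨hl, hb, fun γ n n' => ?_⟩, hβ⟩
  exact hr γ.unop n n'

end Pool.Agent.PFE.H70
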