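import Pool.Agent.PFE.StmtsE2b

/-!
# Squad PFE, part E2, row K1N (helper70)

The relative trace of `1` in degree `1` is a unit or nilpotent in the special fibre.
-/

set_option autoImplicit false

open scoped BigOperators

noncomputable section

namespace Pool.Agent.PFE.H70.K1n

open Pool.Agent.PFE
open Pool.Agent.PFC.B1 (FS Split BiM Sep)
open Pool.Agent.PFD
open Pool.Agent.PFD.D2

section ls

variable {R A X S : Type} [CommRing R] [Ring A] [Algebra R A] [Group X] [Fintype X] [Ring S]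
  [Algebra R S] {y : A} {l : ℕ} {χ : X →* R}

theorem p_cast (L : LS R A X S y l χ) {x x' : X} (hx : x = x') {a a' : A} (ha : a = a')
    (h : a ∈ Nx y χ x) (h' : a' ∈ Nx y χ x') : L.p x ⟨a, h⟩ = L.p x' ⟨a', h'⟩ := by
  subst hx
  subst ha
  rfl

theorem p_mul (L : LS R A X S y l χ) {a b : A} (ha : a ∈ Nx y χ 1) (hb : b ∈ Nx y χ 1)
    (hab : a * b ∈ Nx y χ 1) : L.p 1 ⟨a, ha⟩ * L.p 1 ⟨b, hb⟩ = L.p 1 ⟨a * b, hab⟩ := by
  rw [L.mul]
  exact p_cast L (mul_one 1) rfl _ _

omit [Fintype X] in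
theorem mem_one {a : A} : a ∈ Nx y χ 1 ↔ y * a = a * y := by
  change y * a = χ 1 • (a * y) ↔ _
  rw [map_one, one_smul]

theorem p_pow (L : LS R A X S y l χ) {a : A} (ha : a ∈ Nx y χ 1) (n : ℕ)
    (h : a ^ n ∈ Nx y χ 1) : (L.p 1 ⟨a, ha⟩) ^ n = L.p 1 ⟨a ^ n, h⟩ := by
  induction n with
  | zero =>
    rw [pow_zero, ← L.one]
    exact p_cast L rfl (pow_zero a).symm _ _
  | succ n ih =>
    have h1 : a ^ n ∈ Nx y χ 1 := by
      rw [mem_one]
      exact (Commute.pow_right (mem_one.1 ha : Commute y a) n)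
    have h2 : a ^ n * a ∈ Nx y χ 1 := by
      rw [← pow_succ]
      exact h
    rw [pow_succ, ih h1, p_mul L h1 ha h2]
    exact p_cast L rfl (pow_succ a n).symm _ _

/-- units and nilpotent elements in degree one -/
theorem un_np (L : LS R A X S y l χ) {a : A} (ha : a ∈ Nx y χ 1)
    (h : IsUnit a ∨ IsNilpotent a) :
    IsUnit (L.p 1 ⟨a, ha⟩) ∨ IsNilpotent (L.p 1 ⟨a, ha⟩) := by
  rcases h with h | h
  · left
    obtain ⟨u, rfl⟩ := h
    have h1 : (↑u⁻¹ : A) ∈ Nx y χ 1 := by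
      rw [mem_one]
      have h2 : Commute y (u : A) := mem_one.1 ha
      exact h2.units_inv_right
    refine ⟨⟨L.p 1 ⟨u, ha⟩, L.p 1 ⟨↑u⁻¹, h1⟩, ?_, ?_⟩, rfl⟩
    · rw [p_mul L ha h1 (by rw [u.mul_inv]; exact Nx_one y χ), ← L.one]
      exact p_cast L rfl u.mul_inv _ _
    · rw [p_mul L h1 ha (by rw [u.inv_mul]; exact Nx_one y χ), ← L.one]
      exact p_cast L rfl u.inv_mul _ _
  · right
    obtain ⟨n, hn⟩ := h
    refine ⟨n, ?_⟩
    have h0 : a ^ n ∈ Nx y χ 1 := by
      rw [hn]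
      exact Submodule.zero_mem _
    rw [p_pow L ha n h0, p_cast L rfl hn h0 (Submodule.zero_mem _)]
    exact map_zero (L.p 1)

end ls

theorem k1n : K1nStmt := by
  intro R F A A1 X S S0 J Ω Ω' W _ _ _ _ c _ _ _ _ _ _ _ _ _ _ _ _ _ _ _ _ _ _ _ fb y y0 l χ
    χ0 D Y L L0 fs hy hp hloc E hdeg hb hb' T hT
  classical
  -- the element K
  set H : Ω → A1 := fun o => if D.deg o = 1 then D.g o * D.g' o else 0 with hH
  have hg' : ∀ o, D.g' o ∈ Nx y χ (D.deg o)⁻¹ := by
    intro o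
    change y * D.g' o = χ (D.deg o)⁻¹ • (D.g' o * y)
    rw [D.g'y, smul_smul, ← map_mul, inv_mul_cancel, map_one, one_smul]
  have hom : ∀ w, Y.om w * Y.om w⁻¹ = 1 := by
    intro w
    rw [← map_mul, mul_inv_cancel, map_one]
  have hom' : ∀ w, Y.om w⁻¹ * Y.om w = 1 := by
    intro w
    rw [← map_mul, inv_mul_cancel, map_one]
  have H1 : ∀ (w : W) (o : Ω), H (((1, w) : W × W) • o) = H o := by
    intro w o
    simp only [hH]
    rw [Y.dg, Y.gw, Y.gw']
    split_ifs with h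
    · simp only [inv_one, map_one, one_mul, mul_one]
      rw [mul_assoc, ← mul_assoc (Y.om w⁻¹), hom', one_mul]
    · rfl
  have H2 : ∀ (u : W) (o : Ω), H (((u, 1) : W × W) • o) = Y.om u * H o * Y.om u⁻¹ := by
    intro u o
    simp only [hH]
    rw [Y.dg, Y.gw, Y.gw']
    split_ifs with h
    · simp only [inv_one, map_one, one_mul, mul_one, mul_assoc]
    · rw [mul_zero, zero_mul]
  set K : A1 := ∑ t ∈ T, H t with hK
  have s1 : ∑ o, H o = (Fintype.card W : R) • K := by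
    rw [hT A1 H, hK, Finset.smul_sum]
    refine Finset.sum_congr rfl fun t _ => ?_
    rw [Finset.sum_congr rfl (fun w _ => H1 w t), Finset.sum_const, Finset.card_univ,
      Nat.cast_smul_eq_nsmul]
  have s2 : ∀ u, Y.om u * (∑ o, H o) * Y.om u⁻¹ = ∑ o, H o := by
    intro u
    rw [Finset.mul_sum, Finset.sum_mul]
    have h1 : ∑ o, Y.om u * H o * Y.om u⁻¹ = ∑ o, H (((u, 1) : W × W) • o) :=
      Finset.sum_congr rfl fun o _ => (H2 u o).symm
    rw [h1]
    exact Fintype.sum_equiv (MulAction.toPerm ((u, 1) : W × W)) _ _ (fun _ => rfl)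
  have hc0 : (Fintype.card W : R) ≠ 0 := by
    rw [Nat.cast_ne_zero]
    exact Fintype.card_ne_zero
  have s3 : ∀ u, Y.om u * K * Y.om u⁻¹ = K := by
    intro u
    have h1 := s2 u
    rw [s1, mul_smul_comm, smul_mul_assoc] at h1
    have h2 : (Fintype.card W : R) • (Y.om u * K * Y.om u⁻¹ - K) = 0 := by
      rw [smul_sub, h1, sub_self]
    rcases smul_eq_zero.1 h2 with h3 | h3
    · exact absurd h3 hc0
    · exact sub_eq_zero.1 h3
  have s4 : ∀ u, Y.om u * K = K * Y.om u := by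
    intro u
    calc Y.om u * K = Y.om u * K * (Y.om u⁻¹ * Y.om u) := by rw [hom', mul_one]
      _ = Y.om u * K * Y.om u⁻¹ * Y.om u := by rw [← mul_assoc]
      _ = K * Y.om u := by rw [s3]
  have s5 : y * K = K * y := by
    rw [hK, Finset.mul_sum, Finset.sum_mul]
    refine Finset.sum_congr rfl fun t _ => ?_
    simp only [hH]
    split_ifs with h
    · have h1 := D.gy t
      have h2 := D.g'y t
      rw [h, map_one, one_smul] at h1 h2
      rw [← mul_assoc, h1, mul_assoc, ← h2, mul_assoc]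
    · rw [mul_zero, zero_mul]
  have hKm : K ∈ Nx y χ 1 := mem_one.2 s5
  -- the special fibre
  have hK0 : fb.q K ∈ Nx y0 χ0 1 := by
    rw [mem_one, ← hy, ← map_mul, s5, map_mul]
  have hu : IsUnit (fb.q K) ∨ IsNilpotent (fb.q K) := by
    refine hloc _ ?_ ?_
    · rw [← hy, ← map_mul, s5, map_mul]
    · intro w
      rw [← map_mul, s4, map_mul]
  have e1 : (∑ t ∈ T, if E.deg t = 1 then E.f.b t * E.f.b' t else 0) = L.p 1 ⟨K, hKm⟩ := by
    have hHm : ∀ t, H t ∈ Nx y χ 1 := by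
      intro t
      rw [mem_one]
      simp only [hH]
      split_ifs with h
      · have h1 := D.gy t
        have h2 := D.g'y t
        rw [h, map_one, one_smul] at h1 h2
        rw [← mul_assoc, h1, mul_assoc, ← h2, mul_assoc]
      · rw [mul_zero, zero_mul]
    have h1 : (⟨K, hKm⟩ : Nx y χ 1) = ∑ t ∈ T, (⟨H t, hHm t⟩ : Nx y χ 1) := by
      apply Subtype.ext
      rw [AddSubmonoidClass.coe_finsetSum]
    rw [h1, map_sum]
    refine Finset.sum_congr rfl fun t _ => ?_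
    rw [hdeg]
    split_ifs with h
    · rw [hb t, hb' t (hg' t), L.mul]
      refine p_cast L (mul_inv_cancel _) ?_ _ _
      simp only [hH]
      rw [if_pos h]
    · have h2 : (⟨H t, hHm t⟩ : Nx y χ 1) = 0 := by
        apply Subtype.ext
        simp only [hH]
        rw [if_neg h]
        rfl
      rw [h2, map_zero]
  rw [e1, hp 1 ⟨K, hKm⟩ ⟨fb.q K, hK0⟩ rfl]
  exact un_np L0 hK0 hu

end Pool.Agent.PFE.H70.K1n
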