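import Pool.Agent.PFE.StmtsE2

/-!
Squad PFE, part E2, row KEX (helper70): the projection to the twisted elements.
-/

set_option autoImplicit false

open scoped BigOperators

noncomputable section

namespace Pool.Agent.PFE.H70.Kex

open MulOpposite
open Pool.Agent.PFC.B1 (BiM)
open Pool.Agent.PFD.D2b (wrp)

section abs

variable {R N : Type} [CommRing R] [AddCommGroup N] [Module R N]

/-- the multiples of `p` -/
def Pm (p : R) (N : Type) [AddCommGroup N] [Module R N] : Submodule R N :=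
  LinearMap.range (LinearMap.lsmul R N p)

theorem mem_Pm (p : R) (n : N) : n ∈ Pm p N ↔ ∃ m, p • m = n := Iff.rfl

theorem map_Pm {N' : Type} [AddCommGroup N'] [Module R N'] (p : R) (f : N →ₗ[R] N') {n : N}
    (h : n ∈ Pm p N) : f n ∈ Pm p N' := by
  obtain ⟨m, rfl⟩ := h
  exact ⟨f m, (map_smul f p m).symm⟩

theorem smul_Pm (p : R) {r : R} (n : N) (h : r ∈ Pm p R) : r • n ∈ Pm p N := by
  obtain ⟨t, rfl⟩ := h
  exact ⟨t • n, by
    show p • t • n = (p • t) • n
    rw [smul_assoc]⟩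

/-- the twisted trace operator -/
def TT (l : ℕ) (c : R) (Lo Ro : Module.End R N) : Module.End R N :=
  ∑ j ∈ Finset.range l, c ^ (l - 1 - j) • (Lo ^ j * Ro ^ (l - 1 - j))

theorem TT_tw {l : ℕ} (c : R) (Lo Ro : Module.End R N) (hc : Commute Lo Ro) (hL : Lo ^ l = 0)
    (hR : Ro ^ l = 0) : Lo * TT l c Lo Ro = c • (Ro * TT l c Lo Ro) := by
  obtain ⟨f, hf⟩ : ∃ f : ℕ → Module.End R N, f = fun j => c ^ (l - j) • (Lo ^ j * Ro ^ (l - j)) :=
    ⟨_, rfl⟩
  have h1 : Lo * TT l c Lo Ro = ∑ j ∈ Finset.range l, f (j + 1) := by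
    unfold TT
    rw [Finset.mul_sum]
    refine Finset.sum_congr rfl fun j _ => ?_
    rw [hf]
    show Lo * (c ^ (l - 1 - j) • (Lo ^ j * Ro ^ (l - 1 - j))) =
      c ^ (l - (j + 1)) • (Lo ^ (j + 1) * Ro ^ (l - (j + 1)))
    rw [mul_smul_comm, ← mul_assoc, ← pow_succ', show l - (j + 1) = l - 1 - j by omega]
  have h2 : c • (Ro * TT l c Lo Ro) = ∑ j ∈ Finset.range l, f j := by
    unfold TT
    rw [Finset.mul_sum, Finset.smul_sum]
    refine Finset.sum_congr rfl fun j hj => ?_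
    have hj' : j < l := Finset.mem_range.1 hj
    rw [hf]
    show c • (Ro * (c ^ (l - 1 - j) • (Lo ^ j * Ro ^ (l - 1 - j)))) =
      c ^ (l - j) • (Lo ^ j * Ro ^ (l - j))
    rw [mul_smul_comm, smul_smul, ← mul_assoc, ← (hc.pow_left j).eq, mul_assoc, ← pow_succ',
      ← pow_succ', show l - 1 - j + 1 = l - j by omega]
  have h3 : f 0 = 0 := by
    rw [hf]
    show c ^ (l - 0) • (Lo ^ 0 * Ro ^ (l - 0)) = 0
    rw [Nat.sub_zero, hR, mul_zero, smul_zero]
  have h4 : f l = 0 := by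
    rw [hf]
    show c ^ (l - l) • (Lo ^ l * Ro ^ (l - l)) = 0
    rw [hL, zero_mul, smul_zero]
  have h5 := Finset.sum_range_succ f l
  have h6 := Finset.sum_range_succ' f l
  rw [h4, add_zero] at h5
  rw [h3, add_zero] at h6
  rw [h1, h2, ← h5, ← h6]

/-- powers of a twisted element modulo `p` -/
theorem pow_tw (p c : R) (Lo Ro : Module.End R N) (hc : Commute Lo Ro) (n : N)
    (h : Lo n - c • Ro n ∈ Pm p N) (k : ℕ) : (Lo ^ k) n - c ^ k • (Ro ^ k) n ∈ Pm p N := by
  induction k with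
  | zero =>
    rw [pow_zero, pow_zero, pow_zero, one_smul, sub_self]
    exact Submodule.zero_mem _
  | succ k ih =>
    have e1 : (Lo ^ (k + 1)) n - c ^ (k + 1) • (Ro ^ (k + 1)) n =
        Lo ((Lo ^ k) n - c ^ k • (Ro ^ k) n) + c ^ k • (Ro ^ k) (Lo n - c • Ro n) := by
      have e2 : Lo ((Ro ^ k) n) = (Ro ^ k) (Lo n) := by
        have := congrArg (fun f : Module.End R N => f n) (hc.pow_right k).eq
        exact this
      rw [map_sub, map_sub, map_smul, map_smul, e2, smul_sub, smul_smul, pow_succ' Lo,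
        pow_succ Ro, Module.End.mul_apply, Module.End.mul_apply, ← pow_succ]
      abel
    rw [e1]
    exact Submodule.add_mem _ (map_Pm p Lo ih)
      (Submodule.smul_mem _ _ (map_Pm p (Ro ^ k) h))

variable {Ω Ω' : Type} [Fintype Ω] [Fintype Ω']

open Classical in
/-- the projection -/
def kap (l : ℕ) (c : R) (Lo Ro : Module.End R N) (D : Ω → Prop) (g : Ω → N)
    (co : Ω → (N →ₗ[R] R)) (h : Ω' → N) (d : Ω' → (N →ₗ[R] R)) : Module.End R N :=
  (∑ o, if D o then ∑ i ∈ Finset.range l, ((co o).comp (Lo ^ (l - 1 - i))).smulRight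
      ((Lo ^ i) (g o)) else (co o).smulRight ((Lo ^ (l - 1)) (g o))) +
    ∑ o, ∑ s ∈ Finset.range l, c ^ s • ((d o).comp (Lo ^ (l - 1 - s))).smulRight
      (TT l c Lo Ro ((Ro ^ s) (h o)))

open Classical in
theorem kap_apply (l : ℕ) (c : R) (Lo Ro : Module.End R N) (D : Ω → Prop) (g : Ω → N)
    (co : Ω → (N →ₗ[R] R)) (h : Ω' → N) (d : Ω' → (N →ₗ[R] R)) (n : N) :
    kap l c Lo Ro D g co h d n =
      (∑ o, if D o then ∑ i ∈ Finset.range l, co o ((Lo ^ (l - 1 - i)) n) • (Lo ^ i) (g o)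
        else co o n • (Lo ^ (l - 1)) (g o)) +
      ∑ o, ∑ s ∈ Finset.range l, (c ^ s * d o ((Lo ^ (l - 1 - s)) n)) •
        TT l c Lo Ro ((Ro ^ s) (h o)) := by
  unfold kap
  rw [LinearMap.add_apply, LinearMap.sum_apply, LinearMap.sum_apply]
  congr 1
  · refine Finset.sum_congr rfl fun o _ => ?_
    split_ifs
    · rw [LinearMap.sum_apply]
      rfl
    · rfl
  · refine Finset.sum_congr rfl fun o _ => ?_
    rw [LinearMap.sum_apply]
    refine Finset.sum_congr rfl fun s _ => ?_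
    rw [LinearMap.smul_apply, LinearMap.smulRight_apply, LinearMap.comp_apply, smul_smul]

theorem kap_tw {l : ℕ} (c : R) (Lo Ro : Module.End R N) (hc : Commute Lo Ro) (hL : Lo ^ l = 0)
    (hR : Ro ^ l = 0) (h1 : 1 ≤ l) (D : Ω → Prop) (g : Ω → N) (co : Ω → (N →ₗ[R] R)) (h : Ω' → N)
    (d : Ω' → (N →ₗ[R] R)) (χo uo : Ω → R) (hu : ∀ o, uo o * χo o = 1)
    (hg : ∀ o, Lo (g o) = χo o • Ro (g o)) (hD : ∀ o, D o → χo o = c) (n : N) :
    Lo (kap l c Lo Ro D g co h d n) = c • Ro (kap l c Lo Ro D g co h d n) := by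
  classical
  have hK : ∀ m : N, m ∈ LinearMap.ker (Lo - c • Ro) ↔ Lo m = c • Ro m := by
    intro m
    rw [LinearMap.mem_ker, LinearMap.sub_apply, LinearMap.smul_apply, sub_eq_zero]
  have hLR : ∀ (i : ℕ) (m : N), Ro ((Lo ^ i) m) = (Lo ^ i) (Ro m) := by
    intro i m
    exact (congrArg (fun f : Module.End R N => f m) (hc.pow_left i).eq).symm
  have hLL : ∀ (i : ℕ) (m : N), Lo ((Lo ^ i) m) = (Lo ^ i) (Lo m) := by
    intro i m
    exact congrArg (fun f : Module.End R N => f m) ((Commute.refl Lo).pow_right i).eq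
  rw [← hK, kap_apply]
  refine Submodule.add_mem _ (Submodule.sum_mem _ fun o _ => ?_)
    (Submodule.sum_mem _ fun o _ => Submodule.sum_mem _ fun s _ =>
      Submodule.smul_mem _ _ ((hK _).2 ?_))
  · split_ifs with ho
    · refine Submodule.sum_mem _ fun i _ => Submodule.smul_mem _ _ ((hK _).2 ?_)
      rw [hLL, hg, hD o ho, map_smul, hLR]
    · refine Submodule.smul_mem _ _ ((hK _).2 ?_)
      have e1 : Lo ((Lo ^ (l - 1)) (g o)) = 0 := by
        have e2 : Lo * Lo ^ (l - 1) = 0 := by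
          rw [← pow_succ', show l - 1 + 1 = l by omega, hL]
        exact congrArg (fun f : Module.End R N => f (g o)) e2
      have e3 : Ro ((Lo ^ (l - 1)) (g o)) = 0 := by
        have e4 : χo o • Ro ((Lo ^ (l - 1)) (g o)) = 0 := by
          rw [hLR, ← map_smul, ← hg, ← hLL, e1]
        calc Ro ((Lo ^ (l - 1)) (g o)) = (uo o * χo o) • Ro ((Lo ^ (l - 1)) (g o)) := by
              rw [hu, one_smul]
          _ = 0 := by rw [mul_smul, e4, smul_zero]
      rw [e1, e3, smul_zero]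
  · have := congrArg (fun f : Module.End R N => f ((Ro ^ s) (h o))) (TT_tw c Lo Ro hc hL hR)
    exact this

theorem kap_eq {l : ℕ} (c : R) (Lo Ro ρ : Module.End R N) (hρL : Commute ρ Lo)
    (hρR : Commute ρ Ro) (D : Ω → Prop) (g : Ω → N) (co : Ω → (N →ₗ[R] R)) (h : Ω' → N)
    (d : Ω' → (N →ₗ[R] R)) (w : Equiv.Perm Ω) (w' : Equiv.Perm Ω')
    (hg : ∀ o, g (w o) = ρ (g o)) (hco : ∀ o n, co (w o) (ρ n) = co o n)
    (hh : ∀ o, h (w' o) = ρ (h o)) (hd : ∀ o n, d (w' o) (ρ n) = d o n)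
    (hD : ∀ o, D (w o) ↔ D o) (n : N) :
    kap l c Lo Ro D g co h d (ρ n) = ρ (kap l c Lo Ro D g co h d n) := by
  classical
  have cL : ∀ (i : ℕ) (m : N), (Lo ^ i) (ρ m) = ρ ((Lo ^ i) m) := by
    intro i m
    exact (congrArg (fun f : Module.End R N => f m) (hρL.pow_right i).eq).symm
  have cR : ∀ (i : ℕ) (m : N), (Ro ^ i) (ρ m) = ρ ((Ro ^ i) m) := by
    intro i m
    exact (congrArg (fun f : Module.End R N => f m) (hρR.pow_right i).eq).symm
  have cT : ∀ m : N, TT l c Lo Ro (ρ m) = ρ (TT l c Lo Ro m) := by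
    intro m
    unfold TT
    rw [LinearMap.sum_apply, LinearMap.sum_apply, map_sum]
    refine Finset.sum_congr rfl fun j _ => ?_
    rw [LinearMap.smul_apply, LinearMap.smul_apply, Module.End.mul_apply, Module.End.mul_apply,
      cR, cL, map_smul]
  rw [kap_apply, kap_apply, map_add]
  congr 1
  · rw [← Equiv.sum_comp w, map_sum]
    refine Finset.sum_congr rfl fun o _ => ?_
    by_cases ho : D o
    · rw [if_pos ((hD o).2 ho), if_pos ho, map_sum]
      refine Finset.sum_congr rfl fun i _ => ?_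
      rw [cL, hco, hg, cL, map_smul]
    · rw [if_neg (fun h => ho ((hD o).1 h)), if_neg ho, hco, hg, cL, map_smul]
  · rw [← Equiv.sum_comp w', map_sum]
    refine Finset.sum_congr rfl fun o _ => ?_
    rw [map_sum]
    refine Finset.sum_congr rfl fun s _ => ?_
    rw [cL, hd, hh, cR, cT, map_smul]

theorem kap_cong {l : ℕ} (p c : R) (hcl : c ^ (l - 1) = 1) (Lo Ro : Module.End R N)
    (hc : Commute Lo Ro) (hL : Lo ^ l = 0)
    (hR : Ro ^ l = 0) (h1 : 1 ≤ l) (D : Ω → Prop) (g : Ω → N) (co : Ω → (N →ₗ[R] R)) (h : Ω' → N)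
    (d : Ω' → (N →ₗ[R] R)) (χo : Ω → R) (hχo : ∀ o, ¬ D o → IsUnit (χo o - c))
    (hco : ∀ o n, co o (Lo n) = χo o * co o (Ro n))
    (fr : ∀ n, ∑ o, ∑ i ∈ Finset.range l, co o ((Lo ^ (l - 1 - i)) n) • (Lo ^ i) (g o) +
      ∑ o, ∑ i ∈ Finset.range l, ∑ k ∈ Finset.range l,
        d o ((Lo ^ (l - 1 - i)) ((Ro ^ (l - 1 - k)) n)) • (Lo ^ i) ((Ro ^ k) (h o)) = n)
    (n : N) (hn : Lo n - c • Ro n ∈ Pm p N) :
    kap l c Lo Ro D g co h d n - n ∈ Pm p N := by
  classical
  have hLp : ∀ m, l ≤ m → Lo ^ m = 0 := by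
    intro m hm
    rw [show m = l + (m - l) by omega, pow_add, hL, zero_mul]
  have hRp : ∀ m, l ≤ m → Ro ^ m = 0 := by
    intro m hm
    rw [show m = l + (m - l) by omega, pow_add, hR, zero_mul]
  -- the twisted coordinates
  have hA : ∀ o, ¬ D o → ∀ m, co o ((Lo ^ (m + 1)) n) ∈ Pm p R := by
    intro o ho m
    have e1 : (Lo ^ (m + 1)) n - c • Ro ((Lo ^ m) n) ∈ Pm p N := by
      have e2 : (Lo ^ (m + 1)) n - c • Ro ((Lo ^ m) n) = (Lo ^ m) (Lo n - c • Ro n) := by
        have e3 : Ro ((Lo ^ m) n) = (Lo ^ m) (Ro n) :=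
          (congrArg (fun f : Module.End R N => f n) (hc.pow_left m).eq).symm
        rw [map_sub, map_smul, e3, pow_succ, Module.End.mul_apply]
      rw [e2]
      exact map_Pm p _ hn
    have e4 := map_Pm p (co o) e1
    have e5 : co o ((Lo ^ (m + 1)) n) = χo o * co o (Ro ((Lo ^ m) n)) := by
      rw [← hco, pow_succ', Module.End.mul_apply]
    rw [map_sub, map_smul, smul_eq_mul, e5, ← sub_mul] at e4
    obtain ⟨v, hv⟩ := (hχo o ho).exists_left_inv
    have e6 : co o (Ro ((Lo ^ m) n)) ∈ Pm p R := by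
      have e7 := Submodule.smul_mem _ v e4
      rw [smul_eq_mul, ← mul_assoc, hv, one_mul] at e7
      exact e7
    rw [e5]
    exact Submodule.smul_mem _ (χo o) e6
  -- the free coordinates
  have hB : ∀ k, k < l → (Ro ^ (l - 1 - k)) n - c ^ k • (Lo ^ (l - 1 - k)) n ∈ Pm p N := by
    intro k hk
    have e1 := Submodule.smul_mem _ (c ^ k) (pow_tw p c Lo Ro hc n hn (l - 1 - k))
    rw [smul_sub, smul_smul, ← pow_add, show k + (l - 1 - k) = l - 1 by omega, hcl,
      one_smul] at e1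
    have e2 := Submodule.neg_mem _ e1
    rw [neg_sub] at e2
    exact e2
  have hC : ∀ o i k, k < l → d o ((Lo ^ (l - 1 - i)) ((Ro ^ (l - 1 - k)) n)) -
      c ^ k * d o ((Lo ^ (l - 1 - i + (l - 1 - k))) n) ∈ Pm p R := by
    intro o i k hk
    have e1 := map_Pm p ((d o).comp (Lo ^ (l - 1 - i))) (hB k hk)
    rw [map_sub, map_smul, smul_eq_mul, LinearMap.comp_apply, LinearMap.comp_apply,
      ← Module.End.mul_apply (Lo ^ (l - 1 - i)) (Lo ^ (l - 1 - k)), ← pow_add] at e1
    exact e1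
  -- the double sum
  have hE : ∀ o, ∑ s ∈ Finset.range l, (c ^ s * d o ((Lo ^ (l - 1 - s)) n)) •
        TT l c Lo Ro ((Ro ^ s) (h o)) =
      ∑ i ∈ Finset.range l, ∑ k ∈ Finset.range l,
        (c ^ k * d o ((Lo ^ (l - 1 - i + (l - 1 - k))) n)) • (Lo ^ i) ((Ro ^ k) (h o)) := by
    intro o
    have e1 : ∀ s, (c ^ s * d o ((Lo ^ (l - 1 - s)) n)) • TT l c Lo Ro ((Ro ^ s) (h o)) =
        ∑ i ∈ Finset.range l, (c ^ s * d o ((Lo ^ (l - 1 - s)) n) * c ^ (l - 1 - i)) •
          (Lo ^ i) ((Ro ^ (l - 1 - i + s)) (h o)) := by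
      intro s
      unfold TT
      rw [LinearMap.sum_apply, Finset.smul_sum]
      refine Finset.sum_congr rfl fun i _ => ?_
      rw [LinearMap.smul_apply, smul_smul, Module.End.mul_apply,
        ← Module.End.mul_apply (Ro ^ (l - 1 - i)), ← pow_add]
    rw [Finset.sum_congr rfl fun s _ => e1 s, Finset.sum_comm]
    refine Finset.sum_congr rfl fun i hi => ?_
    have hi' : i < l := Finset.mem_range.1 hi
    have e2 : ∀ f : ℕ → N, (∀ s, i < s → s < l → f s = 0) →
        ∑ s ∈ Finset.range l, f s = ∑ s ∈ Finset.range (i + 1), f s := by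
      intro f hf
      symm
      refine Finset.sum_subset ?_ ?_
      · intro s hs
        rw [Finset.mem_range] at hs ⊢
        omega
      · intro s hs hs'
        rw [Finset.mem_range] at hs hs'
        exact hf s (by omega) hs
    rw [e2]
    · have e3 : l = (l - 1 - i) + (i + 1) := by omega
      have e4 : ∑ k ∈ Finset.range l,
          (c ^ k * d o ((Lo ^ (l - 1 - i + (l - 1 - k))) n)) • (Lo ^ i) ((Ro ^ k) (h o)) =
          ∑ s ∈ Finset.range (i + 1), (c ^ (l - 1 - i + s) *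
            d o ((Lo ^ (l - 1 - i + (l - 1 - (l - 1 - i + s)))) n)) •
            (Lo ^ i) ((Ro ^ (l - 1 - i + s)) (h o)) := by
        have e5 := Finset.sum_range_add (fun k =>
          (c ^ k * d o ((Lo ^ (l - 1 - i + (l - 1 - k))) n)) • (Lo ^ i) ((Ro ^ k) (h o)))
          (l - 1 - i) (i + 1)
        rw [← e3] at e5
        rw [e5, Finset.sum_eq_zero, zero_add]
        intro k hk
        rw [Finset.mem_range] at hk
        rw [hLp _ (by omega), LinearMap.zero_apply, map_zero, mul_zero, zero_smul]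
      rw [e4]
      refine Finset.sum_congr rfl fun s hs => ?_
      rw [Finset.mem_range] at hs
      rw [show l - 1 - i + (l - 1 - (l - 1 - i + s)) = l - 1 - s by omega, pow_add]
      congr 1
      ring
    · intro s hs1 hs2
      rw [hRp _ (by omega), LinearMap.zero_apply, map_zero, smul_zero]
  rw [kap_apply]
  conv =>
    enter [2, 2]
    rw [← fr n]
  rw [add_sub_add_comm, ← Finset.sum_sub_distrib, ← Finset.sum_sub_distrib]
  refine Submodule.add_mem _ (Submodule.sum_mem _ fun o _ => ?_)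
    (Submodule.sum_mem _ fun o _ => ?_)
  · split_ifs with ho
    · rw [sub_self]
      exact Submodule.zero_mem _
    · have e3 : l = (l - 1) + 1 := by omega
      have e4 : ∑ i ∈ Finset.range l, co o ((Lo ^ (l - 1 - i)) n) • (Lo ^ i) (g o) =
          ∑ i ∈ Finset.range (l - 1), co o ((Lo ^ (l - 1 - i)) n) • (Lo ^ i) (g o) +
            co o n • (Lo ^ (l - 1)) (g o) := by
        have e5 := Finset.sum_range_succ (fun i =>
          co o ((Lo ^ (l - 1 - i)) n) • (Lo ^ i) (g o)) (l - 1)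
        rw [← e3, Nat.sub_self, pow_zero, Module.End.one_apply] at e5
        exact e5
      rw [e4, sub_add_cancel_right]
      refine Submodule.neg_mem _ (Submodule.sum_mem _ fun i hi => ?_)
      rw [Finset.mem_range] at hi
      refine smul_Pm p _ ?_
      have e6 := hA o ho (l - 1 - i - 1)
      rw [show l - 1 - i - 1 + 1 = l - 1 - i by omega] at e6
      exact e6
  · rw [hE, ← Finset.sum_sub_distrib]
    refine Submodule.sum_mem _ fun i _ => ?_
    rw [← Finset.sum_sub_distrib]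
    refine Submodule.sum_mem _ fun k hk => ?_
    rw [Finset.mem_range] at hk
    rw [← sub_smul]
    refine smul_Pm p _ ?_
    have e6 := Submodule.neg_mem _ (hC o i k hk)
    rw [neg_sub] at e6
    exact e6

end abs

theorem kex : KexStmt := by
  intro R Γ W N X Ω Ω' _ _ _ _ _ _ _ _ _ _ _ _ l G χ B F hl hχl hχu x
  have hyn : ∀ m, l ≤ m → G.y ^ m = 0 := by
    intro m hm
    rw [show m = l + (m - l) by omega, pow_add, G.yl, zero_mul]
  let Lo : Module.End R N := B.lm G.y
  let Ro : Module.End R N := B.rm (op G.y)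
  have hLi : ∀ i, B.lm (G.y ^ i) = Lo ^ i := fun i => map_pow _ _ _
  have hRi : ∀ i, B.rm (op (G.y ^ i)) = Ro ^ i := by
    intro i
    rw [op_pow, map_pow]
  have hc : Commute Lo Ro := by
    refine LinearMap.ext fun n => ?_
    exact B.comm G.y (op G.y) n
  have hL : Lo ^ l = 0 := by rw [← hLi, G.yl, map_zero]
  have hR : Ro ^ l = 0 := by rw [← hRi, G.yl, op_zero, map_zero]
  have hwL : ∀ w, Commute (wrp G.om B w) Lo := by
    intro w
    refine LinearMap.ext fun n => ?_
    show B.lm (G.om w.1) (B.rm (op (G.om w.2⁻¹)) (B.lm G.y n)) =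
      B.lm G.y (B.lm (G.om w.1) (B.rm (op (G.om w.2⁻¹)) n))
    rw [← B.comm G.y, ← Module.End.mul_apply, ← map_mul, mul_comm, map_mul,
      Module.End.mul_apply]
  have hwR : ∀ w, Commute (wrp G.om B w) Ro := by
    intro w
    refine LinearMap.ext fun n => ?_
    show B.lm (G.om w.1) (B.rm (op (G.om w.2⁻¹)) (B.rm (op G.y) n)) =
      B.rm (op G.y) (B.lm (G.om w.1) (B.rm (op (G.om w.2⁻¹)) n))
    rw [← B.comm (G.om w.1) (op G.y), ← Module.End.mul_apply (B.rm (op (G.om w.2⁻¹))),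
      ← map_mul, ← Module.End.mul_apply (B.rm (op G.y)), ← map_mul, ← op_mul, ← op_mul,
      mul_comm]
  have hinv : ∀ a : X, χ a⁻¹ * χ a = 1 := by
    intro a
    rw [← map_mul, inv_mul_cancel, map_one]
  refine ⟨kap l (χ x) Lo Ro (fun o => F.deg o = x) F.g F.c F.h F.d, ?_, ?_, ?_⟩
  · intro w n
    refine kap_eq (χ x) Lo Ro _ (hwL w) (hwR w) _ _ _ _ _ (MulAction.toPerm w)
      (MulAction.toPerm w) ?_ ?_ ?_ ?_ ?_ n
    · intro o
      exact F.gw w o
    · intro o m
      exact F.cw w o m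
    · intro o
      exact F.hw w o
    · intro o m
      exact F.dw w o m
    · intro o
      rw [MulAction.toPerm_apply, F.dg]
  · intro n
    refine kap_tw (χ x) Lo Ro hc hL hR (by omega) _ _ _ _ _ (fun o => χ (F.deg o))
      (fun o => χ (F.deg o)⁻¹) (fun o => hinv _) (fun o => F.gy o) ?_ n
    intro o ho
    rw [ho]
  · intro p n hn
    obtain ⟨m, hm⟩ := hn
    have e1 : kap l (χ x) Lo Ro (fun o => F.deg o = x) F.g F.c F.h F.d n - n ∈ Pm p N := by
      refine kap_cong p (χ x) (hχl x) Lo Ro hc hL hR (by omega) _ _ _ _ _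
        (fun o => χ (F.deg o)) ?_ (fun o m => F.cy o m) ?_ n ⟨m, hm.symm⟩
      · intro o ho
        have h0 : χ (F.deg o) * χ (x * (F.deg o)⁻¹) = χ x := by
          rw [mul_comm, ← map_mul, inv_mul_cancel_right]
        have h1 : χ (F.deg o) - χ x = χ (F.deg o) * (1 - χ (x * (F.deg o)⁻¹)) := by
          rw [mul_sub, mul_one, h0]
        rw [h1]
        refine IsUnit.mul (IsUnit.of_mul_eq_one (χ (F.deg o)⁻¹) ?_) (hχu _ ?_)
        · rw [mul_comm, hinv]
        · intro h2
          refine ho ?_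
          rw [← mul_inv_eq_one.1 h2]
      · intro m
        have h1 := F.fr m
        simp only [hLi, hRi] at h1
        exact h1
    obtain ⟨m', hm'⟩ := e1
    exact ⟨m', hm'.symm⟩

end Pool.Agent.PFE.H70.Kex
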